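import Mathlib

set_option autoImplicit false

open Filter Topology Metric
open scoped BoundedContinuousFunction

namespace Pool.Agent.Results.MP_b2b51b_an.Counterexample

section
variable {X : Type} [NormedAddCommGroup X] [NormedSpace ℂ X]

def Good (c : ℝ) (f : X →L[ℂ] X) : Prop := (∀ x, c * ‖x‖ ≤ ‖f x‖) ∧ ¬ Function.Surjective f

lemma good_near [CompleteSpace X] {c : ℝ} {f g : X →L[ℂ] X} (h : Good c f)
    (hg : ‖f - g‖ < c / 2) : Good (c / 2) g := by
  have c0 : 0 < c / 2 := (norm_nonneg _).trans_lt hg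
  have h1 : ∀ x, c / 2 * ‖x‖ ≤ ‖g x‖ := fun x => by
    have a1 := (f - g).le_opNorm x
    have a2 := norm_sub_norm_le (f x) (g x)
    have a3 := mul_le_mul_of_nonneg_right hg.le (norm_nonneg x)
    have a4 : (f - g) x = f x - g x := rfl
    rw [a4] at a1
    linarith [h.1 x]
  refine ⟨h1, fun hs => h.2 ?_⟩
  obtain ⟨u, rfl⟩ := ContinuousLinearMap.isUnit_iff_bijective.2 ⟨(injective_iff_map_eq_zero g).2
    fun x hx => by
      have := h1 x
      rw [hx, norm_zero] at this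
      exact norm_le_zero_iff.1 (le_of_mul_le_mul_left (by rwa [mul_zero]) c0), hs⟩
  set v : X →L[ℂ] X := ↑u⁻¹
  have hv : ‖v‖ ≤ (c / 2)⁻¹ := v.opNorm_le_bound (by positivity) fun x => by
    have := h1 (v x)
    rw [show (u : X →L[ℂ] X) (v x) = x from congrArg (fun T : X →L[ℂ] X => T x) u.mul_inv] at this
    rwa [le_inv_mul_iff₀ c0]
  have h2 : ‖-((f - u) * v)‖ < 1 := by
    rw [norm_neg]
    calc ‖(f - u) * v‖ ≤ ‖f - u‖ * (c / 2)⁻¹ :=
          (norm_mul_le _ _).trans (mul_le_mul_of_nonneg_left hv (norm_nonneg _))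
      _ < 1 := by rwa [mul_inv_lt_iff₀ c0, one_mul]
  have e : f = (Units.oneSub _ h2 * u : (X →L[ℂ] X)ˣ) := by
    show f = (1 - -((f - u) * v)) * u
    rw [sub_neg_eq_add, add_mul, mul_assoc, u.inv_mul, one_mul, mul_one, add_sub_cancel]
  exact (ContinuousLinearMap.isUnit_iff_bijective.1 ⟨_, e.symm⟩).2

lemma good_mul {c d : ℝ} (hc : 0 ≤ c) {f g : X →L[ℂ] X} (hf : Good c f)
    (hg : ∀ x, d * ‖x‖ ≤ ‖g x‖) : Good (c * d) (f * g) :=
  ⟨fun x => by
    rw [mul_assoc]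
    exact (mul_le_mul_of_nonneg_left (hg x) hc).trans (hf.1 _), fun h => hf.2 fun y => (h y).elim fun x hx => ⟨g x, hx⟩⟩

end

section
variable (B : Type) [NormedRing B] [NormedAlgebra ℂ B]

noncomputable def p (z : B) (k : ℕ) : TrivSqZeroExt B B :=
  TrivSqZeroExt.inl (z ^ (2 * k + 1)) + TrivSqZeroExt.inr ((1 / 4 : ℂ) ^ (2 * k + 1) • 1)

lemma fst_le (x y : TrivSqZeroExt B B) : ‖x.fst - y.fst‖ ≤ dist x y := by
  rw [dist_eq_norm, TrivSqZeroExt.norm_def]
  exact le_add_of_nonneg_right (norm_nonneg _)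

lemma main [CompleteSpace B] [NormOneClass B] (S0 : Set B) (z : B) (ho : IsOpen S0)
    (hm : ∀ x ∈ S0, ∀ y ∈ S0, x * y ∈ S0) (hb : ∀ n y, ‖z ^ (n + 1) - y‖ < 1 / 2 → y ∈ S0)
    (far : ∀ m n, m ≠ n → 1 / 2 ≤ ‖z ^ m - z ^ n‖)
    (ind : ∀ f ∈ S0, ∀ g ∈ S0, ∀ n, f * g = z ^ n → ∀ h h' : B, ∀ r : ℂ,
      r • (1 : B) = f * h' + h * g → r = 0) :
    ∃ (A : Type) (_ : NormedRing A) (_ : NormedAlgebra ℂ A) (_ : CompleteSpace A)
    (_ : NormOneClass A) (S : Set A), IsOpen S ∧ (∀ x ∈ S, ∀ y ∈ S, x * y ∈ S) ∧ S ≠ Set.univ ∧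
      ∃ a ∈ S, ¬ ∃ L : ℝ,
        Tendsto (fun n : ℕ => infDist (a ^ n) Sᶜ ^ (1 / n : ℝ)) atTop (𝓝 L) := by
  set S : Set (TrivSqZeroExt B B) := TrivSqZeroExt.fst ⁻¹' S0 \ Set.range (p B z)
  have pf : ∀ k, (p B z k).fst = z ^ (2 * k + 1) := fun k => by simp [p]
  have hne : (Sᶜ).Nonempty := ⟨p B z 0, fun h => h.2 ⟨0, rfl⟩⟩
  set a : TrivSqZeroExt B B := TrivSqZeroExt.inl z with ha
  have odd_le : ∀ k, infDist (a ^ (2 * k + 1)) Sᶜ ≤ (1 / 4) ^ (2 * k + 1) := fun k => by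
    refine (infDist_le_dist_of_mem (y := p B z k) fun h => h.2 ⟨k, rfl⟩).trans_eq ?_
    rw [dist_eq_norm, ha, p, TrivSqZeroExt.inl_pow, sub_add_cancel_left, norm_neg,
      TrivSqZeroExt.norm_inr, norm_smul, norm_one]
    simp
  have even_ge : ∀ k, 1 / 2 ≤ infDist (a ^ (2 * k + 1 + 1)) Sᶜ := fun k =>
    (le_infDist hne).2 fun y hy => le_trans (by
      rw [TrivSqZeroExt.fst_pow, ha, TrivSqZeroExt.fst_inl]
      by_contra hn
      refine hy ⟨hb _ _ (not_le.1 hn), ?_⟩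
      rintro ⟨j, rfl⟩
      exact hn (pf j ▸ far _ _ (by omega))) (fst_le B _ _)
  refine ⟨TrivSqZeroExt B B, inferInstance, inferInstance, inferInstance, inferInstance, S,
    IsOpen.sdiff (ho.preimage TrivSqZeroExt.continuous_fst)
      (Metric.isClosed_of_pairwise_le_dist (ε := 1 / 2) (by norm_num) ?_),
    fun x hx y hy => ⟨hm _ hx.1 _ hy.1, ?_⟩,
    Set.nonempty_compl.1 hne, a, ⟨hb 0 z (by simp), ?_⟩, ?_⟩
  · rintro _ ⟨i, rfl⟩ _ ⟨j, rfl⟩ h
    refine le_trans ?_ (fst_le B _ _)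
    rw [pf, pf]
    exact far _ _ fun e => h (by rw [show i = j by omega])
  · rintro ⟨k, hk⟩
    have := ind _ hx.1 _ hy.1 (2 * k + 1) (by rw [← pf, hk]; rfl) x.snd y.snd
      ((1 / 4 : ℂ) ^ (2 * k + 1)) (by simpa [p] using congrArg TrivSqZeroExt.snd hk)
    simp at this
  · rintro ⟨k, hk⟩
    have := congrArg (fun x : TrivSqZeroExt B B => ‖x.snd‖) hk
    simp [p, a, norm_smul] at this
  · rintro ⟨L, hL⟩
    have t := (tendsto_add_atTop_nat 1).comp (tendsto_id.const_mul_atTop' two_pos)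
    have h1 : L ≤ 1 / 4 := le_of_tendsto' (hL.comp t) fun k => by
      refine (Real.rpow_le_rpow infDist_nonneg (odd_le k) (by positivity)).trans_eq ?_
      rw [one_div ((_ : ℕ) : ℝ)]
      exact Real.pow_rpow_inv_natCast (by norm_num) (Nat.succ_ne_zero _)
    have h2 : 1 / 2 ≤ L := ge_of_tendsto' (hL.comp ((tendsto_add_atTop_nat 1).comp t)) fun k => by
      refine le_trans ?_ (Real.rpow_le_rpow (by norm_num) (even_ge k) (by positivity))
      refine Real.self_le_rpow_of_le_one (by norm_num) (by norm_num) ?_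
      exact div_le_one_of_le₀ (by exact_mod_cast Nat.succ_pos _) (Nat.cast_nonneg _)
    linarith

end

lemma main2 {X : Type} [NormedAddCommGroup X] [NormedSpace ℂ X] [CompleteSpace X] [Nontrivial X]
    (z : X →L[ℂ] X) (zg : ∀ n, Good 1 (z ^ (n + 1)))
    (far : ∀ m n, m ≠ n → 1 / 2 ≤ ‖z ^ m - z ^ n‖)
    (ind : ∀ (f g h h' : X →L[ℂ] X) (c d : ℝ) (n : ℕ) (r : ℂ), 0 < c → Good c f → Good d g →
      f * z = z * f → g * z = z * g → h * z = z * h → f * g = z ^ n →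
      r • (1 : X →L[ℂ] X) = f * h' + h * g → r = 0) :
    ∃ (A : Type) (_ : NormedRing A) (_ : NormedAlgebra ℂ A) (_ : CompleteSpace A)
    (_ : NormOneClass A) (S : Set A), IsOpen S ∧ (∀ x ∈ S, ∀ y ∈ S, x * y ∈ S) ∧ S ≠ Set.univ ∧
      ∃ a ∈ S, ¬ ∃ L : ℝ,
        Tendsto (fun n : ℕ => infDist (a ^ n) Sᶜ ^ (1 / n : ℝ)) atTop (𝓝 L) := by
  have : CompleteSpace (Subalgebra.centralizer ℂ ({z} : Set (X →L[ℂ] X))) :=
    (Set.isClosed_centralizer _).completeSpace_coe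
  exact main (Subalgebra.centralizer ℂ ({z} : Set (X →L[ℂ] X)))
    {x | ∃ c > 0, Good c (x : X →L[ℂ] X)} ⟨z, fun _ h => by rw [Set.mem_singleton_iff.1 h]⟩
    (IsOpen.preimage (t := {x | ∃ c > 0, Good c x}) continuous_subtype_val
      (Metric.isOpen_iff.2 fun x ⟨c, c0, hc⟩ => ⟨c / 2, half_pos c0, fun y hy =>
      ⟨c / 2, half_pos c0, good_near hc ((dist_eq_norm x y).symm.trans_lt (mem_ball'.1 hy))⟩⟩))
    (fun _ ⟨c, c0, hc⟩ _ ⟨d, d0, hd⟩ => ⟨c * d, mul_pos c0 d0, good_mul c0.le hc hd.1⟩)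
    (fun n _ h => ⟨_, by norm_num, good_near (zg n) (by simpa using h)⟩)
    (fun m n h => by simpa using far m n h)
    fun f ⟨_, c0, hc⟩ g ⟨_, _, hd⟩ n h1 h h' r h3 => ind f g h h' _ _ n r c0 hc hd
      (f.2 z rfl).symm (g.2 z rfl).symm (h.2 z rfl).symm
      (by simpa using congrArg Subtype.val h1) (by simpa using congrArg Subtype.val h3)

abbrev X : Type := ℕ →ᵇ ℂ

noncomputable def z : X →L[ℂ] X :=
  BoundedContinuousFunction.compContinuousCLM ℂ ℂ ⟨Nat.pred, by fun_prop⟩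

noncomputable def R : X →L[ℂ] X :=
  BoundedContinuousFunction.compContinuousCLM ℂ ℂ ⟨Nat.succ, by fun_prop⟩

noncomputable def e : X := BoundedContinuousFunction.ofNormedAddCommGroupDiscrete
  (fun n => if n = 0 then 1 else 0) 1 fun n => by split_ifs <;> simp

noncomputable def ph (y : X) : ℂ := y 0 - y 1

lemma dec (y : X) : y = z (R y) + ph y • e := by
  ext n
  rcases n with _ | n
  · show y 0 = y 1 + (y 0 - y 1) * 1
    ring
  · show y (n + 1) = y (n + 1) + (y 0 - y 1) * 0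
    ring

lemma ph_z (y : X) : ph (z y) = 0 := sub_self (y 0)

lemma ph_add (x y : X) : ph (x + y) = ph x + ph y := by simp only [ph]; simp; ring

lemma ph_smul (c : ℂ) (y : X) : ph (c • y) = c * ph y := by simp only [ph]; simp; ring

lemma ph_e : ph e = 1 := by simp [ph, e]

lemma z_good : Good 1 z := ⟨fun x => by
  rw [one_mul]
  exact BoundedContinuousFunction.norm_compContinuous_le (z x) ⟨Nat.succ, by fun_prop⟩,
  fun h => by
    obtain ⟨y, hy⟩ := h e
    simpa [hy, ph_e] using ph_z y⟩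

lemma zp (n : ℕ) (x : X) : 1 * ‖x‖ ≤ ‖(z ^ n) x‖ := by
  induction n with
  | zero => simp
  | succ n ih =>
    rw [pow_succ']
    exact ih.trans ((one_mul _).symm.trans_le (z_good.1 ((z ^ n) x)))

lemma zp_good (n : ℕ) : Good 1 (z ^ (n + 1)) := by
  simpa [pow_succ'] using good_mul zero_le_one z_good (zp n)

lemma kill {f g : X →L[ℂ] X} (hf : f * z = z * f) (hs : ¬ Function.Surjective f) {n : ℕ}
    (h : f * g = z ^ n) (x : X) : ph (f x) = 0 := by
  have c : ∀ y, f (z y) = z (f y) := fun y => congrArg (fun T : X →L[ℂ] X => T y) hf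
  have h0 : ph (f e) = 0 := by
    by_contra hne
    have key : ∀ j : ℕ, (∀ y, (z ^ (j + 1)) y ∈ f.range) → ∀ y, (z ^ j) y ∈ f.range := by
      intro j hj y
      have c' : f ((z ^ j) e) = (z ^ j) (f e) :=
        congrArg (fun T : X →L[ℂ] X => T e) (Commute.pow_right hf j)
      have a1 : ph (f e) • (z ^ j) e = f ((z ^ j) e) - (z ^ (j + 1)) (R (f e)) := by
        rw [c', pow_succ, mul_apply_eq_comp, ← map_sub, ← map_smul,
          sub_eq_of_eq_add' (dec (f e))]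
      have a2 : (z ^ j) e ∈ f.range := (Submodule.smul_mem_iff _ hne).1
        (a1 ▸ sub_mem ⟨_, rfl⟩ (hj _))
      rw [dec y, map_add, map_smul]
      exact add_mem (hj (R y)) (Submodule.smul_mem _ _ a2)
    have : ∀ j, j ≤ n → ∀ y, (z ^ j) y ∈ f.range := fun j hj =>
      Nat.decreasingInduction (fun k _ hk => key k hk) (fun y => ⟨g y, h ▸ rfl⟩) hj
    exact hs (this 0 n.zero_le)
  rw [dec x, map_add, map_smul, c, ph_add, ph_smul, ph_z, h0, mul_zero, add_zero]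

instance : Nontrivial X := ⟨0, 1, fun h => by simpa using DFunLike.congr_fun h 0⟩

lemma far {m n : ℕ} (h : m ≠ n) : 1 / 2 ≤ ‖z ^ m - z ^ n‖ := by
  wlog hl : n < m generalizing m n
  · rw [norm_sub_rev]; exact this h.symm (by omega)
  obtain ⟨k, rfl⟩ := Nat.exists_eq_add_of_lt hl
  by_contra hn
  refine (good_near (g := 1) (zp_good k) (lt_of_le_of_lt ?_ (not_le.1 hn))).2 fun y => ⟨y, rfl⟩
  refine ContinuousLinearMap.opNorm_le_bound _ (norm_nonneg _) fun x => ?_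
  refine le_trans ?_ ((z ^ (n + k + 1) - z ^ n).le_opNorm x)
  rw [show z ^ (n + k + 1) - z ^ n = z ^ n * (z ^ (k + 1) - 1) by
    rw [mul_sub, mul_one, ← pow_add, add_assoc]]
  simpa using zp n ((z ^ (k + 1) - 1) x)

lemma ind {f g h h' : X →L[ℂ] X} {c d : ℝ} {n : ℕ} {r : ℂ} (c0 : 0 < c) (hc : Good c f)
    (hd : Good d g) (cf : f * z = z * f) (cg : g * z = z * g) (ch : h * z = z * h)
    (h1 : f * g = z ^ n) (h3 : r • (1 : X →L[ℂ] X) = f * h' + h * g) : r = 0 := by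
  have h2 : g * f = z ^ n := by
    ext1 v
    have a1 := hc.1 ((g * f) v - (z ^ n) v)
    have a2 : f * (g * f) = f * z ^ n := by rw [← mul_assoc, h1, (Commute.pow_right cf _).eq]
    have a3 : f ((g * f) v) = f ((z ^ n) v) := congrArg (fun T : X →L[ℂ] X => T v) a2
    rw [map_sub, a3, sub_self, norm_zero] at a1
    exact sub_eq_zero.1 (norm_le_zero_iff.1 (le_of_mul_le_mul_left (by rwa [mul_zero]) c0))
  have h4 : r • e = f (h' e) + h (g e) := congrArg (fun T : X →L[ℂ] X => T e) h3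
  have h5 := congrArg ph h4
  have h6 : h (z (R (g e))) = z (h (R (g e))) := congrArg (fun T : X →L[ℂ] X => T (R (g e))) ch
  rw [ph_smul, ph_e, ph_add, kill cf hc.2 h1, dec (g e), kill cg hd.2 h2, zero_smul, add_zero,
    h6, ph_z] at h5
  simpa using h5

theorem result : ∃ (A : Type) (_ : NormedRing A) (_ : NormedAlgebra ℂ A) (_ : CompleteSpace A)
    (_ : NormOneClass A) (S : Set A), IsOpen S ∧ (∀ x ∈ S, ∀ y ∈ S, x * y ∈ S) ∧ S ≠ Set.univ ∧
      ∃ a ∈ S, ¬ ∃ L : ℝ,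
        Tendsto (fun n : ℕ => infDist (a ^ n) Sᶜ ^ (1 / n : ℝ)) atTop (𝓝 L) :=
  main2 z zp_good (fun _ _ => far) fun _ _ _ _ _ _ _ _ => ind

end Pool.Agent.Results.MP_b2b51b_an.Counterexample
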